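import Pool.Agent.Helper12.NK.St

/-!
# Project NK, module KCA: elementary facts on `Kc`, `rst`, `cnt`
-/

set_option autoImplicit false

namespace Pool.Agent.Helper36.NK

open Pool.Agent.Helper12.NK
open Pool.Agent.Helper51.AJ (IsMinor Planar Apex ExMinor Con Tch con_singleton con_pair)

variable {V : Type}

private theorem con_congr {G H : SimpleGraph V} {S : Set V}
    (h : ∀ a ∈ S, ∀ b ∈ S, (G.Adj a b ↔ H.Adj a b)) : Con G S ↔ Con H S := by
  have e : G.induce S = H.induce S := by
    ext a b
    exact h a.1 a.2 b.1 b.2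
  show (G.induce S).Connected ↔ (H.induce S).Connected
  rw [e]

private theorem nbr_of_con {G : SimpleGraph V} {S : Set V} (h : Con G S) {a b : V} (ha : a ∈ S)
    (hb : b ∈ S) (hab : a ≠ b) : ∃ c ∈ S, G.Adj a c := by
  obtain ⟨p⟩ := h.preconnected ⟨a, ha⟩ ⟨b, hb⟩
  cases p with
  | nil => exact absurd rfl hab
  | cons h1 p => exact ⟨_, Subtype.property _, h1⟩

private theorem isMinor_mono {W : Type} {M : SimpleGraph W} {H H' : SimpleGraph V} (h : H ≤ H')
    (hm : IsMinor M H) : IsMinor M H' := by
  obtain ⟨φ, h1, h2, h3⟩ := hm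
  refine ⟨φ, fun w => (h1 w).mono ?_, h2, ?_⟩
  · intro a b hab
    exact h hab
  · intro w w' hww
    obtain ⟨x, hx, y, hy, hxy⟩ := h3 w w' hww
    exact ⟨x, hx, y, hy, h hxy⟩

theorem hKCA : StPTR → StKCA := by
  intro hPTR V _ G U
  refine ⟨?_, ?_, ?_, ?_, ?_, ?_, ?_, ?_⟩
  · intro k h
    exact ⟨by have := h.1; omega, fun X hX => h.2 X (by omega)⟩
  · intro k h w
    constructor
    · have h1 := h.1
      have h2 := Set.ncard_sdiff_singleton_le U w
      have h3 : U.ncard ≤ (U \ {w}).ncard + 1 := by
        by_cases hw : w ∈ U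
        · rw [Set.ncard_sdiff_singleton_add_one hw]
        · rw [Set.sdiff_singleton_eq_self hw]
          omega
      omega
    · intro X hX
      have e : (U \ {w}) \ X = U \ (insert w X) := by
        ext a
        simp only [Set.mem_sdiff, Set.mem_singleton_iff, Set.mem_insert_iff, not_or]
        tauto
      rw [e]
      refine h.2 _ ?_
      have := Set.ncard_insert_le w X
      omega
  · intro k h a ha
    by_contra hk
    push Not at hk
    set X : Set V := {b | b ∈ U ∧ G.Adj a b} with hX
    have hc := h.2 X hk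
    have haX : a ∈ U \ X := ⟨ha, fun h1 => G.ne_of_adj h1.2 rfl⟩
    have h1 : 1 < (U \ X).ncard := by
      have h2 := Set.ncard_le_ncard_sdiff_add_ncard U X
      have h3 := h.1
      omega
    obtain ⟨b, hb, hba⟩ := Set.exists_ne_of_one_lt_ncard h1 a
    obtain ⟨c, hc1, hc2⟩ := nbr_of_con hc haX hb hba.symm
    exact hc1.2 ⟨hc1.1, hc2⟩
  · intro S hS
    refine con_congr fun a ha b hb => ?_
    exact ⟨fun h => ⟨h, hS ha, hS hb⟩, fun h => h.1⟩
  · intro H S h
    exact con_congr h
  · intro H H' h hp
    exact ⟨fun hm => hp.1 (isMinor_mono h hm), fun hm => hp.2 (isMinor_mono h hm)⟩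
  · constructor
    · intro hp
      refine hPTR V ↥U (rst G U) (G.induce U) (fun a => {x | x.1 = a}) ?_ ?_ ?_ hp
      · intro a a' h
        have e : {x : ↥U | x.1 = a} = {⟨a, h.2.1⟩} := by
          ext x
          simp only [Set.mem_ofPred_eq, Set.mem_singleton_iff]
          exact ⟨fun h1 => Subtype.ext h1, fun h1 => congrArg Subtype.val h1⟩
        show Con (G.induce U) {x : ↥U | x.1 = a}
        rw [e]
        exact con_singleton _ _
      · intro a a' b b' hab _ _
        rw [Set.disjoint_left]
        intro x hx hx'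
        exact hab (hx.symm.trans hx')
      · intro a a' h
        exact ⟨⟨a, h.2.1⟩, rfl, ⟨a', h.2.2⟩, rfl, h.1⟩
    · intro hp
      refine hPTR ↥U V (G.induce U) (rst G U) (fun a => {a.1}) ?_ ?_ ?_ hp
      · intro a a' _
        exact con_singleton _ _
      · intro a a' b b' hab _ _
        exact Set.disjoint_singleton.2 fun h => hab (Subtype.ext h)
      · intro a a' h
        exact ⟨a.1, rfl, a'.1, rfl, h, a.2, a'.2⟩
  · intro u hu v hv huv hp
    classical
    refine hPTR V V (rst (cnt G u v) (U \ {v})) (rst G U)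
      (fun a => if a = u then {u, v} else {a}) ?_ ?_ ?_ hp
    · intro a a' h
      show Con (rst G U) (if a = u then {u, v} else {a})
      split_ifs with hau
      · exact con_pair ⟨huv, hu, hv⟩
      · exact con_singleton _ _
    · intro a a' b b' hab ha hb
      have hav : a ≠ v := ha.1.2.1
      have hbv : b ≠ v := hb.1.2.1
      show Disjoint (if a = u then ({u, v} : Set V) else {a}) (if b = u then {u, v} else {b})
      rw [Set.disjoint_left]
      intro x hx hx'
      split_ifs at hx hx' with h1 h2
      · exact hab (h1.trans h2.symm)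
      · rcases hx with hx | hx
        · exact h2 ((Set.mem_singleton_iff.1 hx').symm.trans hx)
        · rw [Set.mem_singleton_iff] at hx hx'
          exact hbv (hx'.symm.trans hx)
      · rcases hx' with hx' | hx'
        · rw [Set.mem_singleton_iff] at hx
          exact h1 (hx.symm.trans hx')
        · rw [Set.mem_singleton_iff] at hx hx'
          exact hav (hx.symm.trans hx')
      · rw [Set.mem_singleton_iff] at hx hx'
        exact hab (hx.symm.trans hx')
    · intro a a' h
      have hself : ∀ b : V, b ∈ (if b = u then ({u, v} : Set V) else {b}) := by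
        intro b
        split_ifs with h1
        · left
          exact h1
        · rfl
      have hvu : v ∈ (if u = u then ({u, v} : Set V) else {u}) := by
        rw [if_pos rfl]
        right
        rfl
      have haU : a ∈ U := h.2.1.1
      have haU' : a' ∈ U := h.2.2.1
      rcases h.1.2.2.2 with h1 | ⟨rfl, h1⟩ | ⟨rfl, h1⟩
      · exact ⟨a, hself a, a', hself a', h1, haU, haU'⟩
      · exact ⟨v, hvu, a', hself a', h1, hv, haU'⟩
      · exact ⟨a, hself a, v, hvu, h1.symm, haU, hv⟩

end Pool.Agent.Helper36.NK
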